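import Mathlib
import Pool.Agent.H358R5.Gaps

/-! `H_3 ≤ 4209616`: four consecutive primes in an interval of length 4209616, many times. -/

theorem Pool.Agent.Results.MP_68a45e_nt.FourPrimesInBoundedGaps.result :
    ∀ ε : ℝ, 0 < ε → ∀ᶠ x : ℝ in Filter.atTop,
      x ^ (1 - ε) ≤ (Set.ncard {k : ℕ | (Nat.nth Nat.Prime k : ℝ) ≤ x ∧
        Nat.nth Nat.Prime (k + 3) ≤ Nat.nth Nat.Prime k + 4209616} : ℝ) :=
  fun ε hε => Pool.Agent.H358R5.gaps4 ε hε
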