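import Mathlib
import Pool.Agent.H361R2.HD.Asm

/-!
MP_68a45e_nt, PatternDensity.

Design and assembly: helper361 (project HD, on top of project PP: sieve engine of helper410 and
helpers 20, 96, 212, 325, 343, 363, 372, 379, 415, 433, 488, 575, 602, 633, 708, 804, 862, 872, 909,
911, 923).  Parts of HD: MANN helper403, RIGHT helper652, LEFT helper724, GOOD helper997,
SECTION helper221, REC1 helper942, REC2 helper672, CORE helper971, SELECT helper311, MEAS helper267,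
CLOSED helper18, FINAL helper143, COMP helper467, SIEVE helper817.
-/

set_option autoImplicit false

namespace Pool.Agent.Results.MP_68a45e_nt.PatternDensity

/-- For every infinite set `𝒳` of scales, every `k` and `η > 0` and all large real `S`: the set of
the vectors `δ ∈ [0, S]^k` such that for all `ε > 0` and `m` there is `c > 0` such that for
arbitrarily large `X ∈ 𝒳` at least `c X` of the integers `n ∈ [X, 2X)` have at least `m` primes
within `ε log X` of `n` and at least `m` primes within `ε log X` of each `n + δ_i log X`, has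
volume at least `((k + 1) / 4^k - η) S^k`. -/
theorem result : ∀ 𝒳 : Set ℕ, 𝒳.Infinite → ∀ (k : ℕ) (η : ℝ), 0 < η → ∃ S₀ : ℝ, ∀ S : ℝ,
    S₀ ≤ S → ENNReal.ofReal ((((k : ℝ) + 1) / 4 ^ k - η) * S ^ k) ≤
      MeasureTheory.volume {δ : Fin k → ℝ | (∀ i, 0 ≤ δ i ∧ δ i ≤ S) ∧
        ∀ ε : ℝ, 0 < ε → ∀ m : ℕ, ∃ c : ℝ, 0 < c ∧ ∀ X₀ : ℕ, ∃ X ∈ 𝒳, X₀ ≤ X ∧
          c * X ≤ (((Finset.Ico X (2 * X)).filter (fun n : ℕ =>
            m ≤ ((Finset.range (4 * X)).filter (fun p : ℕ =>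
              p.Prime ∧ |(p : ℝ) - n| ≤ ε * Real.log X)).card ∧
            ∀ i, m ≤ ((Finset.range (4 * X)).filter (fun p : ℕ =>
              p.Prime ∧ |(p : ℝ) - (n + δ i * Real.log X)| ≤ ε * Real.log X)).card)).card : ℝ)} := by
  intro 𝒳 h𝒳 k η hη
  obtain ⟨S₀, h⟩ := Pool.Agent.H361R2.HD.hd 𝒳 h𝒳 k η hη
  refine ⟨S₀, fun S hS => (h S hS).trans (MeasureTheory.measure_mono ?_)⟩
  intro δ hδ
  obtain ⟨⟨h0, h1⟩, h2⟩ := hδ
  rw [Set.mem_Icc] at h2
  refine ⟨fun i => ⟨h0 i, h2.2 i⟩, fun ε hε m => ?_⟩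
  obtain ⟨c, hc, h3⟩ := h1 ε hε m
  refine ⟨c, hc, fun X₀ => ?_⟩
  obtain ⟨X, hX, hX0, h4⟩ := h3 X₀
  refine ⟨X, hX, hX0, h4.trans (Nat.cast_le.2 (Finset.card_le_card ?_))⟩
  intro n hn
  rw [Finset.mem_filter] at hn ⊢
  refine ⟨hn.1, hn.2.1.trans (Finset.card_le_card ?_), fun i =>
    (hn.2.2 i).trans (Finset.card_le_card ?_)⟩
  · intro p hp
    rw [Finset.mem_filter] at hp ⊢
    refine ⟨hp.1, hp.2.1, ?_⟩
    have := hp.2.2
    rwa [zero_mul, sub_zero] at this
  · intro p hp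
    rw [Finset.mem_filter] at hp ⊢
    refine ⟨hp.1, hp.2.1, ?_⟩
    have := hp.2.2
    rwa [sub_sub] at this

end Pool.Agent.Results.MP_68a45e_nt.PatternDensity
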