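import Mathlib
import Pool.Agent.H361R2.PP.Asm2

/-! Positive proportion of integers `n` with exactly `m` primes in `(n, n + lam log n]` and no prime
in `(n - Lam log n, n]`, for all `lam > 0`, `Lam >= 0` and `m`. -/

open Classical in
theorem Pool.Agent.Results.MP_68a45e_nt.PoissonPositivity.result :
    ∀ (lam Λ : ℝ) (m : ℕ), 0 < lam → 0 ≤ Λ → ∃ c : ℝ, 0 < c ∧ ∃ N₀ : ℕ, ∀ N : ℕ, N₀ ≤ N →
      c * N ≤ (((Finset.Icc 1 N).filter (fun n : ℕ =>
        Nat.primeCounting ⌊(n : ℝ) + lam * Real.log n⌋₊ = Nat.primeCounting n + m ∧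
        Nat.primeCounting n = Nat.primeCounting ⌊(n : ℝ) - Λ * Real.log n⌋₊)).card : ℝ) := by
  intro lam Λ m h1 h2
  obtain ⟨c, hc, N₀, h⟩ := Pool.Agent.H361R2.PP.poissonP lam Λ m h1 h2
  refine ⟨c, hc, N₀, fun N hN => (h N hN).trans (Nat.cast_le.2 (Finset.card_le_card ?_))⟩
  intro n hn
  rw [Finset.mem_filter] at hn ⊢
  exact hn
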