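import Mathlib
import Pool.Agent.H387R2.U8

/-!
The Hardy-Littlewood prime tuples conjecture: an unconditional lower bound with the conjectured constants, for the
`(k+1)`-element patterns inside an arbitrary finite set `A` of integers with at least `lam * log N` elements, `lam > k`.
-/

namespace Pool.Agent.Results.MP_68a45e_nt.UniversalLowerBound
open Finset Pool.Agent.H387R2.Uni

theorem result :
    (∀ T : Finset ℕ, HasProd (fun p : Nat.Primes => locT T p) (CT T) ∧ (Adm T → 0 < CT T)) ∧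
    ∀ (k q : ℕ), 1 ≤ q → ∀ lam θ C : ℝ, (k : ℝ) < lam → 0 < θ →
      θ < ∏ i ∈ range k, (1 - (i + 1 : ℝ) / lam) →
      ∃ N₀ : ℕ, ∀ N : ℕ, N₀ ≤ N → ∀ (c : ℕ) (A : Finset ℕ), (∀ a ∈ A, a ≡ c [MOD q]) →
        (∀ a ∈ A, (a : ℝ) ≤ Real.log N ^ C) → lam * ((Nat.totient q : ℝ) / q) * Real.log N ≤ A.card →
        θ * (∑ T ∈ A.powersetCard (k + 1), CT T) * (∫ t in (2:ℝ)..N, 1 / Real.log t ^ (k + 1)) ≤
          ∑ T ∈ A.powersetCard (k + 1), (piT T N : ℝ) := by
  refine ⟨fun T => ⟨CT_hasProd T, fun hT => ?_⟩, fun k q hq lam θ C hlam hθ0 hθ =>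
    universal k q hq lam θ C hlam hθ0 hθ⟩
  rw [← CT_en]
  apply Pool.Agent.H386R2.HL.singularSeries_pos (en_inj T)
  intro p hp
  rw [nu_en]
  exact hT p hp

end Pool.Agent.Results.MP_68a45e_nt.UniversalLowerBound
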